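import Pool.Agent.helper92.FV.Defs2

/-! # MP_51fbee_al, module PM1: the initial model (a polynomial ring on generators). -/

namespace FV

universe u

variable {k : Type u} [Field k]

theorem PM1_prepend {M' M N : DGA k} (g : DGA.Hom M' M) (s : DGA.Hom M M')
    (hs : ∀ a, g.f (s.f a) = a) (y : M'.A) (hy : y ∈ M'.gr 0 1) (hg : DGA.IsStep g 0 1 y)
    {f : DGA.Hom M N} {ys : List M.A} (h : DGA.XChain M N f ys) :
    DGA.XChain M' N (f.comp g) (ys.map s.f ++ [y]) := by
  induction h with
  | nil =>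
    have h1 : DGA.XChain M' M (g.comp (DGA.Hom.id M')) [y] := DGA.XChain.cons g y hy .nil hg
    have h2 : (DGA.Hom.id M).comp g = g.comp (DGA.Hom.id M') := by
      apply DGA.Hom.ext; intro a; rfl
    rw [h2]
    exact h1
  | @cons N N' f xs g2 x hx h hst ih =>
    have h2 : (g2.comp f).comp g = g2.comp (f.comp g) := by
      apply DGA.Hom.ext; intro a; rfl
    rw [h2]
    simp only [List.map_cons, List.cons_append]
    refine DGA.XChain.cons g2 (s.f x) (s.f_mem hx) ih ?_
    have h3 : (f.comp g).f (s.f x) = f.f x := by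
      rw [DGA.Hom.comp_apply, hs]
    rw [h3]
    exact hst

theorem PM1_base_gr {i j : ℤ} {a : (DGA.base k).A} (ha : a ∈ (DGA.base k).gr i j)
    (h : ¬ (i = 0 ∧ j = 0)) : a = 0 := by
  have hx' : a ∈ (if i = 0 ∧ j = 0 then ⊤ else ⊥ : Submodule k k) := ha
  rw [if_neg h] at hx'
  exact (Submodule.mem_bot (M := k) k).mp hx'

theorem PM1_conn_base : (DGA.base k).Conn where
  zero := fun x _ => ⟨x, rfl⟩
  inj := fun _ _ h => h
  cone := fun n m x hx hne => by
    left
    by_contra h
    exact hne (PM1_base_gr hx h)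
  fin := fun n m => by
    have : Module.Finite k (DGA.base k).A := inferInstanceAs (Module.Finite k k)
    have : IsNoetherian k (DGA.base k).A := inferInstanceAs (IsNoetherian k k)
    exact inferInstance

section Ring

variable {R : Type u} [CommRing R] [Algebra k R] {𝒜 : ℕ → Submodule k R} [GradedAlgebra 𝒜]

/-- the structure map `k → R` -/
def PM1_base (𝒜 : ℕ → Submodule k R) [GradedAlgebra 𝒜] : DGA.Hom (DGA.base k) (ofRing 𝒜) where
  f := (Algebra.ofId k R : k →ₐ[k] R)
  f_ε _ := rfl
  f_d a := by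
    show algebraMap k R ((0 : k →ₗ[k] k) a) = (0 : R →ₗ[k] R) _
    simp
  f_mem := by
    intro i j a ha
    show algebraMap k R a ∈ (if i = 0 ∧ 0 ≤ j then 𝒜 j.toNat else ⊥ : Submodule k R)
    by_cases h : i = 0 ∧ j = 0
    · rw [if_pos ⟨h.1, by omega⟩, h.2]
      have h1 : (1 : R) ∈ 𝒜 0 := SetLike.GradedOne.one_mem
      rw [Algebra.algebraMap_eq_smul_one]
      exact Submodule.smul_mem _ _ h1
    · have h1 : algebraMap k R a = 0 := by
        rw [show a = (0 : k) from PM1_base_gr ha h]; exact map_zero _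
      rw [h1]
      exact Submodule.zero_mem _

/-- the initial stage -/
theorem PM1_stage (F : DGA.AdjFunctor k 0 1) (xs : List R) (hxs : ∀ x ∈ xs, x ∈ 𝒜 1) :
    ∃ (M : DGA k) (π : DGA.Hom M (ofRing 𝒜)) (ys : List M.A) (f : DGA.Hom M (DGA.base k)),
      M.Conn ∧ (∀ y ∈ ys, y ∈ M.gr 0 1) ∧ ys.map (fun y => π.toR y) = xs ∧
      DGA.XChain M (DGA.base k) f ys ∧
      ∀ z ∈ M.gr 0 1, z ∈ Submodule.span k {y | y ∈ ys} := by
  induction xs using List.reverseRecOn with
  | nil =>
    refine ⟨DGA.base k, PM1_base 𝒜, [], DGA.Hom.id _, PM1_conn_base, by simp, rfl, .nil, ?_⟩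
    intro z hz
    rw [PM1_base_gr hz (by norm_num)]
    exact Submodule.zero_mem _
  | append_singleton xs x ih =>
    obtain ⟨M, π, ys, f, hc, hy, hmap, hch, hsp⟩ := ih (fun x' hx' => hxs x' (by simp [hx']))
    have hx : x ∈ 𝒜 1 := hxs x (by simp)
    have hA : DGA.AdjData M 0 1 0 :=
      ⟨le_refl _, le_refl _, Submodule.zero_mem _, map_zero _⟩
    obtain ⟨g, hg1, hg2⟩ := F.kill M 0 hA rfl
    have hx1 := mem_ofRing_one hx
    obtain ⟨π', hp1, hp2⟩ := F.lift M 0 hA (ofRing 𝒜) π x hx1
      (map_zero π.f).symm (fun h => absurd h (by decide))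
    refine ⟨F.obj M 0 hA, π', ys.map (F.inc M 0 hA).f ++ [F.var M 0 hA], f.comp g,
      F.conn M 0 hA (by norm_num) hc, ?_, ?_, ?_, ?_⟩
    · intro y hy'
      rw [List.mem_append, List.mem_map, List.mem_singleton] at hy'
      rcases hy' with ⟨y', hy1, rfl⟩ | rfl
      · exact (F.inc M 0 hA).f_mem (hy y' hy1)
      · exact F.var_mem M 0 hA
    · rw [List.map_append, List.map_map]
      congr 1
      · rw [← hmap]
        apply List.map_congr_left
        intro a _
        exact hp1 a
      · show [π'.toR (F.var M 0 hA)] = [x]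
        congr 1
    · exact PM1_prepend g (F.inc M 0 hA) hg1 _ (F.var_mem M 0 hA) hg2 hch
    · intro z hz
      obtain ⟨a, ha, c, -, rfl⟩ := F.piece_eq M 0 hA 0 hc z hz
      refine Submodule.add_mem _ ?_ (Submodule.smul_mem _ _ (Submodule.subset_span (by simp)))
      have h1 := hsp a ha
      have h2 : (F.inc M 0 hA).f a ∈
          (Submodule.span k {y | y ∈ ys}).map ((F.inc M 0 hA).f : M.A →ₗ[k] _) :=
        ⟨a, h1, rfl⟩
      rw [Submodule.map_span] at h2
      refine Submodule.span_mono ?_ h2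
      rintro _ ⟨y, hy', rfl⟩
      simp only [Set.mem_ofPred_eq, List.mem_append, List.mem_map, List.mem_singleton]
      exact Or.inl ⟨y, hy', rfl⟩

/-- `model_init`, from an adjunction functor for even variables of bidegree `(0, 1)` -/
theorem model_init_of (F : DGA.AdjFunctor k 0 1) (h : StdGraded 𝒜) (xs : List R) (hxs : ∀ x ∈ xs, x ∈ 𝒜 1)
    (hspan : Submodule.span k {x | x ∈ xs} = 𝒜 1) (hnd : xs.Nodup)
    (hli : LinearIndependent k (fun x : {x // x ∈ xs} => (x : R))) :
    ∃ P : PreModel 𝒜 xs 1, P.vars = [] ∧ ∀ m, m ≤ 1 → QuasiAt P.π m := by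
  obtain ⟨M, π, ys, f, hc, hy, hmap, hch, hsp⟩ := PM1_stage F xs hxs
  have := h.nontriv
  refine ⟨⟨M, π, hc, [], by simp, ys, hy, hmap, ⟨_, f, DGA.Hom.id _, hch, .nil⟩, by simp⟩,
    rfl, ?_⟩
  intro m hm
  show QuasiAt π m
  -- injectivity on the span
  have hinj : ∀ z ∈ M.gr 0 1, π.f z = 0 → z = 0 := by
    intro z hz hz0
    set v : {y // y ∈ ys} → M.A := fun y => y with hv
    have h1 : z ∈ Submodule.span k (Set.range v) := by
      have : Set.range v = {y | y ∈ ys} := by
        ext y; simp [hv]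
      rw [this]; exact hsp z hz
    rw [Finsupp.mem_span_range_iff_exists_finsupp] at h1
    obtain ⟨c, hcz⟩ := h1
    have hmem : ∀ y : {y // y ∈ ys}, π.toR y ∈ xs := fun y => by
      rw [← hmap]; exact List.mem_map_of_mem (f := fun y => π.toR y) y.2
    have hnd' : (ys.map (fun y => π.toR y)).Nodup := by rw [hmap]; exact hnd
    have hli' : LinearIndependent k (fun y : {y // y ∈ ys} => π.toR y) := by
      have := hli.comp (fun y : {y // y ∈ ys} => (⟨π.toR y, hmem y⟩ : {x // x ∈ xs})) (by
        intro y y' hyy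
        have h2 : π.toR y = π.toR y' := congrArg Subtype.val hyy
        exact Subtype.ext (List.inj_on_of_nodup_map hnd' y.2 y'.2 h2))
      exact this
    have h2 : c = 0 := by
      apply (linearIndependent_iff.mp hli') c
      rw [Finsupp.linearCombination_apply]
      have h3 := congrArg π.f hcz
      rw [hz0, Finsupp.sum, map_sum] at h3
      rw [Finsupp.sum]
      refine Eq.trans ?_ h3
      refine Finset.sum_congr rfl fun y _ => ?_
      rw [map_smul]
      rfl
    rw [← hcz, h2]; simp
  refine ⟨?_, ?_⟩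
  · intro r hr
    have hr' : r ∈ (if (0 : ℤ) = 0 ∧ 0 ≤ m then 𝒜 m.toNat else ⊥ : Submodule k R) := hr
    rcases lt_trichotomy m 0 with h0 | h0 | h0
    · rw [if_neg (by omega)] at hr'
      exact ⟨0, Submodule.zero_mem _, (map_zero π.f).trans ((Submodule.mem_bot (M := R) k).mp hr').symm⟩
    · subst h0
      rw [if_pos ⟨rfl, le_refl _⟩] at hr'
      obtain ⟨c, hc'⟩ := h.zero r hr'
      refine ⟨algebraMap k M.A c, ?_, ?_⟩
      · rw [Algebra.algebraMap_eq_smul_one]
        exact Submodule.smul_mem _ _ M.one_mem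
      · rw [AlgHom.commutes]; exact hc'.symm
    · have hm1 : m = 1 := by omega
      subst hm1
      rw [if_pos ⟨rfl, by norm_num⟩] at hr'
      have hr2 : r ∈ 𝒜 1 := hr'
      rw [← hspan] at hr2
      have h2 : ∀ r ∈ Submodule.span k {x | x ∈ xs}, ∃ a ∈ M.gr 0 1, π.toR a = r := by
        intro r hr
        induction hr using Submodule.span_induction with
        | mem x hx =>
          have hx' : x ∈ ys.map (fun y => π.toR y) := by rw [hmap]; exact hx
          obtain ⟨y, hy1, hy2⟩ := List.mem_map.mp hx'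
          exact ⟨y, hy y hy1, hy2⟩
        | zero => exact ⟨0, Submodule.zero_mem _, map_zero _⟩
        | add x y _ _ hx hy =>
          obtain ⟨a, ha, rfl⟩ := hx
          obtain ⟨b, hb, rfl⟩ := hy
          exact ⟨a + b, Submodule.add_mem _ ha hb, map_add _ _ _⟩
        | smul c x _ hx =>
          obtain ⟨a, ha, rfl⟩ := hx
          exact ⟨c • a, Submodule.smul_mem _ _ ha, map_smul π.f c a⟩
      exact h2 r hr2
  · intro n z hz
    obtain ⟨hz1, hz2, hz3⟩ := hz
    have hz0 : z = 0 := by
      by_contra hne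
      rcases hc.cone n m z hz1 hne with ⟨rfl, rfl⟩ | ⟨h1, h2⟩
      · obtain ⟨c, rfl⟩ := hc.zero z hz1
        rw [AlgHom.commutes] at hz3
        have h3 : algebraMap k R c = 0 := hz3
        have h4 : c = 0 := (algebraMap k R).injective (by rw [h3, map_zero])
        exact hne (by rw [h4, map_zero])
      · have hn : n = 0 := by omega
        have hm' : m = 1 := by omega
        subst hn; subst hm'
        exact hne (hinj z hz1 hz3)
    exact ⟨0, Submodule.zero_mem _, by rw [map_zero, hz0]⟩

end Ring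

end FV
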