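import Pool.Agent.helper59.FV.PM1
import Pool.Agent.helper54.FV.AE

/-! # MP_51fbee_al, module PM1 (conclusion) -/

namespace FV

universe u

variable {k : Type u} [Field k] {R : Type u} [CommRing R] [Algebra k R] {𝒜 : ℕ → Submodule k R}
  [GradedAlgebra 𝒜]

theorem model_init (h : StdGraded 𝒜) (xs : List R) (hxs : ∀ x ∈ xs, x ∈ 𝒜 1)
    (hspan : Submodule.span k {x | x ∈ xs} = 𝒜 1) (hnd : xs.Nodup)
    (hli : LinearIndependent k (fun x : {x // x ∈ xs} => (x : R))) :
    ∃ P : PreModel 𝒜 xs 1, P.vars = [] ∧ ∀ m, m ≤ 1 → QuasiAt P.π m := by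
  obtain ⟨F⟩ := exists_adj_even (k := k) 0 1 Even.zero (le_refl _) (le_refl _)
  exact model_init_of F h xs hxs hspan hnd hli

end FV
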